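import Pool.Agent.W580.SH.StmB

/-!
# Project SH: no stuck set for `θ > 1/3`
-/

set_option autoImplicit false
set_option linter.unusedSectionVars false

namespace Pool.Agent.W193.SH

open Finset Pool.Agent.W580.SH

variable {R : Type}

theorem pat5 {p : R → ℤ} {l j k a b : R} {c0 c1 c2 c3 c4 : ℤ} (h0 : p l = c0) (h1 : p j = c1)
    (h2 : p k = c2) (h3 : p a = c3) (h4 : p b = c4) :
    ∀ x : Fin 5, p (![l, j, k, a, b] x) = ![c0, c1, c2, c3, c4] x := by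
  intro x
  fin_cases x
  · exact h0
  · exact h1
  · exact h2
  · exact h3
  · exact h4

/-- the eight facts of a prism with `e = g = 1` -/
theorem prism_swap {A : Finset (R → ℤ)} {l j k : R} {u v : Fin 3 → (R → ℤ)}
    (h : Prism A l j k 1 1 u v) : Prism A l k j 1 1 ![u 0, u 2, u 1] ![v 0, v 2, v 1] := by
  obtain ⟨h1, h2, h3, h4, h5, h6, h7⟩ := h
  refine ⟨?_, h3, h2, h7, h6, h5, h4⟩
  intro i
  fin_cases i
  · obtain ⟨a, b, c, d, e, f⟩ := h1 0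
    exact ⟨a, b, c, d, f, e⟩
  · obtain ⟨a, b, c, d, e, f⟩ := h1 2
    exact ⟨a, b, c, d, f, e⟩
  · obtain ⟨a, b, c, d, e, f⟩ := h1 1
    exact ⟨a, b, c, d, f, e⟩

theorem pairs_perm {A : Finset (R → ℤ)} {J : Finset R} {l : R} {u v : Fin 3 → (R → ℤ)}
    (h : Pairs A J l 3 u v) (σ : Equiv.Perm (Fin 3)) : Pairs A J l 3 (u ∘ σ) (v ∘ σ) := by
  refine ⟨fun i => h.1 (σ i), fun i i' hi => ?_⟩
  exact h.2 (σ i) (σ i') (fun e => hi (σ.injective e))

variable [Fintype R] [DecidableEq R]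

/-- a tie triple with a nonconstant row contains a prism -/
theorem tie (hS : S_SEP) (hB : S_BOUND) {I : Finset R} {A : Finset (R → ℤ)} {O : R → ℝ} {θ : ℝ}
    (H : HypB I A O θ) {J : Finset R} (hJ : J ⊆ I) {l : R} (hl : l ∈ J) (hO : O l = θ)
    {u v : Fin 3 → (R → ℤ)} (hP : Pairs A J l 3 u v) {j : R} (hj : j ∈ J) (hjl : j ≠ l)
    (hn : ∃ i i', u i j ≠ u i' j) :
    ∃ k ∈ J, k ≠ l ∧ k ≠ j ∧ O j = θ ∧ O k = θ ∧ ∃ u' v' : Fin 3 → (R → ℤ),
      Pairs A J l 3 u' v' ∧ Prism A l j k 1 1 u' v' ∧ (∀ r, (∃ i i', u' i r ≠ u' i' r) →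
        ∃ i i', u i r ≠ u i' r) := by
  obtain ⟨k, hk, hkl, hkj, e, g, he, hg, σ, hPr⟩ := hS R J A H.bin l u v hP j hj hjl hn
  obtain ⟨-, -, -, -, h5⟩ := hB R I A O θ H l j k e g _ _ (hJ hl) (hJ hj) (hJ hk) he hg hPr
  obtain ⟨h6, h7, rfl, rfl⟩ := h5 hO
  refine ⟨k, hk, hkl, hkj, h6, h7, _, _, pairs_perm hP σ, hPr, ?_⟩
  rintro r ⟨i, i', h⟩
  exact ⟨σ i, σ i', h⟩

/-- the configuration of case 2 -/
structure Conf (I : Finset R) (A : Finset (R → ℤ)) (O : R → ℝ) (θ : ℝ) (l j k a b : R)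
    (u v X Y : Fin 3 → (R → ℤ)) : Prop where
  H : HypB I A O θ
  pr : Prism A l j k 1 1 u v
  pr' : Prism A j a b 1 1 X Y
  ol : O l = θ
  oj : O j = θ
  ok : O k = θ
  oa : O a = θ
  ob : O b = θ
  va : ∀ i, v i a = u i a
  vb : ∀ i, v i b = u i b
  Xk : ∀ i, X i k = 0
  Yk : ∀ i, Y i k = 0
  Xl : ∀ i, X i l = 0
  Yl : ∀ i, Y i l = 0

theorem Conf.swap {I : Finset R} {A : Finset (R → ℤ)} {O : R → ℝ} {θ : ℝ} {l j k a b : R}
    {u v X Y : Fin 3 → (R → ℤ)} (C : Conf I A O θ l j k a b u v X Y) :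
    Conf I A O θ l j k b a u v ![X 0, X 2, X 1] ![Y 0, Y 2, Y 1] where
  H := C.H
  pr := C.pr
  pr' := prism_swap C.pr'
  ol := C.ol
  oj := C.oj
  ok := C.ok
  oa := C.ob
  ob := C.oa
  va := C.vb
  vb := C.va
  Xk := by
    intro i
    fin_cases i
    · exact C.Xk 0
    · exact C.Xk 2
    · exact C.Xk 1
  Yk := by
    intro i
    fin_cases i
    · exact C.Yk 0
    · exact C.Yk 2
    · exact C.Yk 1
  Xl := by
    intro i
    fin_cases i
    · exact C.Xl 0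
    · exact C.Xl 2
    · exact C.Xl 1
  Yl := by
    intro i
    fin_cases i
    · exact C.Yl 0
    · exact C.Yl 2
    · exact C.Yl 1

theorem oall {O : R → ℝ} {θ : ℝ} {l j k a b : R} (h0 : O l = θ) (h1 : O j = θ)
    (h2 : O k = θ) (h3 : O a = θ) (h4 : O b = θ) : ∀ x : Fin 5, O (![l, j, k, a, b] x) = θ := by
  intro x
  fin_cases x
  · exact h0
  · exact h1
  · exact h2
  · exact h3
  · exact h4

theorem Conf.c00 (h00 : S_C00) {I : Finset R} {A : Finset (R → ℤ)} {O : R → ℝ} {θ : ℝ}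
    {l j k a b : R} {u v X Y : Fin 3 → (R → ℤ)} (C : Conf I A O θ l j k a b u v X Y)
    (ha : ∀ i, u i a = 0) (hb : ∀ i, u i b = 0) : θ ≤ 1 / 3 := by
  obtain ⟨h1, h2, h3, h4, h5, h6, h7⟩ := C.pr
  obtain ⟨g1, g2, g3, g4, g5, g6, g7⟩ := C.pr'
  refine h00 R I A O θ C.H ![l, j, k, a, b] (oall C.ol C.oj C.ok C.oa C.ob)
    ![u 1, u 2, u 0, v 0, Y 1, Y 2] ?_ ?_ ?_ ?_ ?_ ?_ ?_
  · intro x
    fin_cases x
    · exact (h1 1).1
    · exact (h1 2).1
    · exact (h1 0).1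
    · exact (h1 0).2.1
    · exact (g1 1).2.1
    · exact (g1 2).2.1
  · exact pat5 (p := u 1) (h1 1).2.2.1 h4 (by rw [h5]; rfl) (ha 1) (hb 1)
  · exact pat5 (p := u 2) (h1 2).2.2.1 (by rw [h6]; rfl) h7 (ha 2) (hb 2)
  · exact pat5 (p := u 0) (h1 0).2.2.1 (by rw [h2]; rfl) (by rw [h3]; rfl) (ha 0) (hb 0)
  · exact pat5 (p := v 0) (h1 0).2.2.2.1 (by rw [(h1 0).2.2.2.2.1, h2]; rfl)
      (by rw [(h1 0).2.2.2.2.2, h3]; rfl) (by rw [C.va, ha]) (by rw [C.vb, hb])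
  · exact pat5 (p := Y 1) (C.Yl 1) (g1 1).2.2.2.1 (C.Yk 1)
      (by rw [(g1 1).2.2.2.2.1, g4]) (by rw [(g1 1).2.2.2.2.2, g5]; rfl)
  · exact pat5 (p := Y 2) (C.Yl 2) (g1 2).2.2.2.1 (C.Yk 2)
      (by rw [(g1 2).2.2.2.2.1, g6]; rfl) (by rw [(g1 2).2.2.2.2.2, g7])

theorem Conf.c10 (h10 : S_C10) {I : Finset R} {A : Finset (R → ℤ)} {O : R → ℝ} {θ : ℝ}
    {l j k a b : R} {u v X Y : Fin 3 → (R → ℤ)} (C : Conf I A O θ l j k a b u v X Y)
    (ha : ∀ i, u i a = 1) (hb : ∀ i, u i b = 0) : θ ≤ 1 / 3 := by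
  obtain ⟨h1, h2, h3, h4, h5, h6, h7⟩ := C.pr
  obtain ⟨g1, g2, g3, g4, g5, g6, g7⟩ := C.pr'
  refine h10 R I A O θ C.H ![l, j, k, a, b] (oall C.ol C.oj C.ok C.oa C.ob)
    ![X 1, X 2, X 0, Y 0, u 0, v 2] ?_ ?_ ?_ ?_ ?_ ?_ ?_
  · intro x
    fin_cases x
    · exact (g1 1).1
    · exact (g1 2).1
    · exact (g1 0).1
    · exact (g1 0).2.1
    · exact (h1 0).1
    · exact (h1 2).2.1
  · exact pat5 (p := X 1) (C.Xl 1) (g1 1).2.2.1 (C.Xk 1) g4 (by rw [g5]; rfl)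
  · exact pat5 (p := X 2) (C.Xl 2) (g1 2).2.2.1 (C.Xk 2) (by rw [g6]; rfl) g7
  · exact pat5 (p := X 0) (C.Xl 0) (g1 0).2.2.1 (C.Xk 0) (by rw [g2]; rfl) (by rw [g3]; rfl)
  · exact pat5 (p := Y 0) (C.Yl 0) (g1 0).2.2.2.1 (C.Yk 0) (by rw [(g1 0).2.2.2.2.1, g2]; rfl)
      (by rw [(g1 0).2.2.2.2.2, g3]; rfl)
  · exact pat5 (p := u 0) (h1 0).2.2.1 (by rw [h2]; rfl) (by rw [h3]; rfl) (ha 0) (hb 0)
  · exact pat5 (p := v 2) (h1 2).2.2.2.1 (by rw [(h1 2).2.2.2.2.1, h6]; rfl)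
      (by rw [(h1 2).2.2.2.2.2, h7]) (by rw [C.va, ha]) (by rw [C.vb, hb])

theorem Conf.cn (hN : S_CN) {I : Finset R} {A : Finset (R → ℤ)} {O : R → ℝ} {θ : ℝ}
    {l j k a b : R} {u v X Y : Fin 3 → (R → ℤ)} (C : Conf I A O θ l j k a b u v X Y)
    (ha0 : u 0 a = 0) (ha1 : u 1 a = 1) (ha2 : u 2 a = 0) (hb : ∀ i, u i b = 0) : False := by
  obtain ⟨h1, h2, h3, h4, h5, h6, h7⟩ := C.pr
  obtain ⟨g1, g2, g3, g4, g5, g6, g7⟩ := C.pr'
  refine hN R I A O θ C.H ![l, j, k, a, b] (oall C.ol C.oj C.ok C.oa C.ob)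
    ![u 1, u 2, u 0, v 0, X 2, X 0] ?_ ?_ ?_ ?_ ?_ ?_ ?_
  · intro x
    fin_cases x
    · exact (h1 1).1
    · exact (h1 2).1
    · exact (h1 0).1
    · exact (h1 0).2.1
    · exact (g1 2).1
    · exact (g1 0).1
  · exact pat5 (p := u 1) (h1 1).2.2.1 h4 (by rw [h5]; rfl) ha1 (hb 1)
  · exact pat5 (p := u 2) (h1 2).2.2.1 (by rw [h6]; rfl) h7 ha2 (hb 2)
  · exact pat5 (p := u 0) (h1 0).2.2.1 (by rw [h2]; rfl) (by rw [h3]; rfl) ha0 (hb 0)
  · exact pat5 (p := v 0) (h1 0).2.2.2.1 (by rw [(h1 0).2.2.2.2.1, h2]; rfl)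
      (by rw [(h1 0).2.2.2.2.2, h3]; rfl) (by rw [C.va, ha0]) (by rw [C.vb, hb])
  · exact pat5 (p := X 2) (C.Xl 2) (g1 2).2.2.1 (C.Xk 2) (by rw [g6]; rfl) g7
  · exact pat5 (p := X 0) (C.Xl 0) (g1 0).2.2.1 (C.Xk 0) (by rw [g2]; rfl) (by rw [g3]; rfl)

/-- a row of a triple at `l` which has a common one with `j` is constant or has its only one at
the point 1 -/
theorem row_type (hO : S_ONE) (hV : S_V2) {I : Finset R} {A : Finset (R → ℤ)} {O : R → ℝ} {θ : ℝ}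
    (H : HypB I A O θ) {J : Finset R} (hJ : J ⊆ I) {l j k : R} (hl : l ∈ J) (hOl : O l = θ)
    {u v : Fin 3 → (R → ℤ)} (hP : Pairs A J l 3 u v) (hPr : Prism A l j k 1 1 u v)
    {a : R} (ha : a ∈ J) (hal : a ≠ l) {y : R → ℤ} (hy : y ∈ A) (hyj : y j = 1) (hya : y a = 1) :
    (∀ i, u i a = 0) ∨ (∀ i, u i a = 1) ∨ (u 0 a = 0 ∧ u 1 a = 1 ∧ u 2 a = 0) := by
  obtain ⟨h1, h2, h3, h4, h5, h6, h7⟩ := hPr
  by_cases hn : ∃ i i', u i a ≠ u i' a
  · obtain ⟨-, i, hi, hi'⟩ := hO R I A O θ H J hJ l hl hOl u v hP a ha hal hn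
    have hva : ∀ i, v i a = u i a := fun i => ((hP.1 i).2.2.2.2 a ha hal).symm
    have hvj : ∀ i, v i j = u i j := fun i => (h1 i).2.2.2.2.1
    fin_cases i
    · exfalso
      have e1 : u 1 a = 0 := hi' 1 (by decide)
      have e2 : u 2 a = 0 := hi' 2 (by decide)
      have hPr' : Prism A l j a 1 1 ![u 2, u 1, u 0] ![v 2, v 1, v 0] := by
        refine ⟨?_, h6, ?_, h4, ?_, h2, hi⟩
        · intro i
          fin_cases i
          · exact ⟨(h1 2).1, (h1 2).2.1, (h1 2).2.2.1, (h1 2).2.2.2.1, hvj 2, hva 2⟩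
          · exact ⟨(h1 1).1, (h1 1).2.1, (h1 1).2.2.1, (h1 1).2.2.2.1, hvj 1, hva 1⟩
          · exact ⟨(h1 0).1, (h1 0).2.1, (h1 0).2.2.1, (h1 0).2.2.2.1, hvj 0, hva 0⟩
        · exact e2
        · exact e1
      exact hV R I A O θ H l j a _ _ hPr' y hy ⟨hyj, hya⟩
    · right; right
      exact ⟨hi' 0 (by decide), hi, hi' 2 (by decide)⟩
    · exfalso
      have e0 : u 0 a = 0 := hi' 0 (by decide)
      have e1 : u 1 a = 0 := hi' 1 (by decide)
      have hPr' : Prism A l j a 1 1 u v := by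
        refine ⟨?_, h2, ?_, h4, ?_, h6, hi⟩
        · intro i
          exact ⟨(h1 i).1, (h1 i).2.1, (h1 i).2.2.1, (h1 i).2.2.2.1, hvj i, hva i⟩
        · exact e0
        · exact e1
      exact hV R I A O θ H l j a _ _ hPr' y hy ⟨hyj, hya⟩
  · push Not at hn
    rcases H.bin (u 0) (h1 0).1 a with h | h
    · left; intro i; rw [hn i 0, h]
    · right; left; intro i; rw [hn i 0, h]

theorem main (hS : S_SEP) (hB : S_BOUND) (hM : S_MIN) (hO : S_ONE) (hV : S_V2) (hT : S_T1)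
    (hR : S_R) (h00 : S_C00) (h10 : S_C10) (hN : S_CN) : S_NOSTUCK := by
  intro R _ _ I A O θ H J hJ hSt
  by_contra hcon
  obtain ⟨⟨l, hl, hOl⟩, hpos, -⟩ := hM R I A O θ H J hJ hSt
  obtain ⟨u₀, v₀, hP₀⟩ := hSt.2 l hl
  obtain ⟨j, hj, hjl, hne⟩ := hP₀.2 0 1 (by decide)
  obtain ⟨k, hk, hkl, hkj, hOj, hOk, u, v, hP, hPr, -⟩ :=
    tie hS hB H hJ hl hOl hP₀ hj hjl ⟨0, 1, hne⟩
  have hV1 := hV R I A O θ H l j k u v hPr
  obtain ⟨h1, h2, h3, h4, h5, h6, h7⟩ := id hPr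
  obtain ⟨X₀, Y₀, hQ₀⟩ := hSt.2 j hj
  have hPv : ∀ i, ∀ r ∈ J, r ≠ l → v i r = u i r := fun i r hr hrl =>
    ((hP.1 i).2.2.2.2 r hr hrl).symm
  by_cases hc : ∃ i i', X₀ i l ≠ X₀ i' l
  · -- case 1
    obtain ⟨b, hb, hbj, hbl, -, hOb, X, Y, hQ, hQr, -⟩ := tie hS hB H hJ hj hOj hQ₀ hl hjl.symm hc
    have hV2 := hV R I A O θ H j l b X Y hQr
    obtain ⟨g1, g2, g3, g4, g5, g6, g7⟩ := hQr
    have hXk : ∀ i, X i k = 0 := by
      intro i
      rcases H.bin (X i) (g1 i).1 k with h | h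
      · exact h
      · exact absurd ⟨(g1 i).2.2.1, h⟩ (hV1 _ (g1 i).1)
    have hYk : ∀ i, Y i k = 0 := by
      intro i
      rw [← (hQ.1 i).2.2.2.2 k hk hkj, hXk]
    have hub : ∀ i, u i b = 0 := by
      intro i
      rcases H.bin (u i) (h1 i).1 b with h | h
      · exact h
      · exact absurd ⟨(h1 i).2.2.1, h⟩ (hV2 _ (h1 i).1)
    have hvb : ∀ i, v i b = 0 := by
      intro i
      rw [hPv i b hb hbl, hub]
    apply hcon
    refine hR R I A O θ H ![l, j, k, b] ?_ ![v 0, u 0, v 1, v 2, Y 2] ?_ ?_ ?_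
    · intro x
      fin_cases x
      · exact hOl
      · exact hOj
      · exact hOk
      · exact hOb
    · intro x
      fin_cases x
      · exact (h1 0).2.1
      · exact (h1 0).1
      · exact (h1 1).2.1
      · exact (h1 2).2.1
      · exact (g1 2).2.1
    · intro x
      fin_cases x
      · exact (h1 0).2.2.2.1
      · show v 0 j = 0
        rw [(h1 0).2.2.2.2.1, h2]; rfl
      · show v 0 k = 0
        rw [(h1 0).2.2.2.2.2, h3]; rfl
      · exact hvb 0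
    · intro y x
      fin_cases y
      · fin_cases x
        · exact (h1 0).2.2.1
        · show u 0 j = 0
          rw [h2]; rfl
        · show u 0 k = 0
          rw [h3]; rfl
        · exact hub 0
      · fin_cases x
        · exact (h1 1).2.2.2.1
        · show v 1 j = 1
          rw [(h1 1).2.2.2.2.1, h4]
        · show v 1 k = 0
          rw [(h1 1).2.2.2.2.2, h5]; rfl
        · exact hvb 1
      · fin_cases x
        · exact (h1 2).2.2.2.1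
        · show v 2 j = 0
          rw [(h1 2).2.2.2.2.1, h6]; rfl
        · show v 2 k = 1
          rw [(h1 2).2.2.2.2.2, h7]
        · exact hvb 2
      · fin_cases x
        · show Y 2 l = 0
          rw [(g1 2).2.2.2.2.1, g6]; rfl
        · exact (g1 2).2.2.2.1
        · exact hYk 2
        · show Y 2 b = 1
          rw [(g1 2).2.2.2.2.2, g7]
  · -- case 2
    obtain ⟨a, ha, haj, hne2⟩ := hQ₀.2 0 1 (by decide)
    obtain ⟨b, hb, hbj, hba, hOa, hOb, X, Y, hQ, hQr, hnc⟩ :=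
      tie hS hB H hJ hj hOj hQ₀ ha haj ⟨0, 1, hne2⟩
    have hcX : ∀ i i', X i l = X i' l := by
      by_contra h
      push Not at h
      exact hc (hnc l h)
    have hV2 := hV R I A O θ H j a b X Y hQr
    obtain ⟨g1, g2, g3, g4, g5, g6, g7⟩ := id hQr
    have hXk : ∀ i, X i k = 0 := by
      intro i
      rcases H.bin (X i) (g1 i).1 k with h | h
      · exact h
      · exact absurd ⟨(g1 i).2.2.1, h⟩ (hV1 _ (g1 i).1)
    have hYk : ∀ i, Y i k = 0 := by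
      intro i
      rw [← (hQ.1 i).2.2.2.2 k hk hkj, hXk]
    have hYl : ∀ i, Y i l = X i l := by
      intro i
      rw [(hQ.1 i).2.2.2.2 l hl hjl.symm]
    have hal : a ≠ l := by
      rintro rfl
      have := hcX 0 1
      rw [g2, g4] at this
      norm_num at this
    have hbl : b ≠ l := by
      rintro rfl
      have := hcX 0 2
      rw [g3, g7] at this
      norm_num at this
    have ta := row_type hO hV H hJ hl hOl hP hPr ha hal (g1 1).1 (g1 1).2.2.1 g4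
    have tb := row_type hO hV H hJ hl hOl hP hPr hb hbl (g1 2).1 (g1 2).2.2.1 g7
    have hva : ∀ i, v i a = u i a := fun i => hPv i a ha hal
    have hvb : ∀ i, v i b = u i b := fun i => hPv i b hb hbl
    -- not both
    have hnb : ∀ i, ¬ (u i a = 1 ∧ u i b = 1) := fun i => hV2 _ (h1 i).1
    rcases H.bin (X 0) (g1 0).1 l with hX | hX
    · -- c = 0
      have C : Conf I A O θ l j k a b u v X Y :=
        { H := H, pr := hPr, pr' := hQr, ol := hOl, oj := hOj, ok := hOk, oa := hOa, ob := hOb,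
          va := hva, vb := hvb, Xk := hXk, Yk := hYk,
          Xl := fun i => by rw [hcX i 0, hX]
          Yl := fun i => by rw [hYl i, hcX i 0, hX] }
      rcases ta with ta | ta | ⟨ta0, ta1, ta2⟩
      · rcases tb with tb | tb | ⟨tb0, tb1, tb2⟩
        · exact hcon (C.c00 h00 ta tb)
        · exact hcon (C.swap.c10 h10 tb ta)
        · exact C.swap.cn hN tb0 tb1 tb2 ta
      · rcases tb with tb | tb | ⟨tb0, tb1, tb2⟩
        · exact hcon (C.c10 h10 ta tb)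
        · exact hnb 0 ⟨ta 0, tb 0⟩
        · exact hnb 1 ⟨ta 1, tb1⟩
      · rcases tb with tb | tb | ⟨tb0, tb1, tb2⟩
        · exact C.cn hN ta0 ta1 ta2 tb
        · exact hnb 1 ⟨ta1, tb 1⟩
        · exact hnb 1 ⟨ta1, tb1⟩
    · -- c = 1
      have hY1 : ∀ i, Y i l = 1 := fun i => by rw [hYl i, hcX i 0, hX]
      have hca : ∀ c : ℤ, (∀ i, u i a = c) → False := by
        intro c h
        have t := hT R I A O θ H l j k a c u v hPr hOl hOj hOk (hpos a ha)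
          (fun i => ⟨h i, by rw [hva, h]⟩)
        have e0 := t (Y 0) (g1 0).2.1 (hY1 0) (g1 0).2.2.2.1 (hYk 0)
        have e1 := t (Y 1) (g1 1).2.1 (hY1 1) (g1 1).2.2.2.1 (hYk 1)
        rw [(g1 0).2.2.2.2.1, g2] at e0
        rw [(g1 1).2.2.2.2.1, g4] at e1
        omega
      have hcb : ∀ c : ℤ, (∀ i, u i b = c) → False := by
        intro c h
        have t := hT R I A O θ H l j k b c u v hPr hOl hOj hOk (hpos b hb)
          (fun i => ⟨h i, by rw [hvb, h]⟩)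
        have e0 := t (Y 0) (g1 0).2.1 (hY1 0) (g1 0).2.2.2.1 (hYk 0)
        have e1 := t (Y 2) (g1 2).2.1 (hY1 2) (g1 2).2.2.2.1 (hYk 2)
        rw [(g1 0).2.2.2.2.2, g3] at e0
        rw [(g1 2).2.2.2.2.2, g7] at e1
        omega
      rcases ta with ta | ta | ⟨ta0, ta1, ta2⟩
      · exact hca 0 ta
      · exact hca 1 ta
      · rcases tb with tb | tb | ⟨tb0, tb1, tb2⟩
        · exact hcb 0 tb
        · exact hcb 1 tb
        · exact hnb 1 ⟨ta1, tb1⟩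

end Pool.Agent.W193.SH
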